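import Pool.Agent.Lib.MP_f80667_ag.Lv.Kg

/-!
The graded pieces of level `≥ 2` for every prime `p`: definitions and the algebra of the additivity.

* `Hyv f L π k`: the hypotheses. `Chv f L π s χ`: `χ` is a character of the graded piece of level `s ≥ 2`.
* `dfx_add`: the additivity of the values follows from the parallel displacements.
-/

open ZC BE PE CV IntermediateField

namespace GX

section loc

variable {F : Type} [Field F] {N : ℕ} {ι : Type} (f : ι → MvPolynomial (Fin N) F)
  {K Ω : Type} [Field K] [CharZero K] [Field Ω] [Algebra K Ω] [Algebra F K] [Algebra F Ω]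
  [IsScalarTower F K Ω] [IsAlgClosure K Ω] (L : Ld K Ω) (π : Ω)

/-- The hypotheses. -/
structure Hyv (k : ℕ) : Prop where
  hm : Hm f
  uf : Uf L π
  rf : L.Rf ⊥ k

/-- `χ` is a character of the graded piece of level `s ≥ 2`. -/
structure Chv (s : ℕ) (χ : ((Xf f).pt Ω →₀ ℤ) → ZMod L.p) : Prop where
  two : 2 ≤ s
  add : ∀ z ∈ Vl f L π s, ∀ z' ∈ Vl f L π s, χ (z + z') = χ z + χ z'
  zero : ∀ z ∈ Vl f L π (s + 1), χ z = 0

end loc

section alg

variable {O V A : Type} [CommRing O] [AddCommGroup V] [Module O V] [AddCommGroup A]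

/-- **Additivity.** `T w g` is the value of the displacement `π ^ s g` at the point `w`, `q = π ^ (s - 1)`. Proof: `T (w + η; η + g) = T (w - g; g + η)` (`par`), both sides by `coc`:
`T (w + (1 + q) η; g) - T (w; g) = T (w - (1 - q) g; η) - T (w; η)`, the right side is `0` for `η ∈ π V` (`close`). -/
theorem dfx_add {T : V → V → A} {π q r u : O}
    (par : ∀ w g (σ : O), T (w + σ • g) g = T w g)
    (coc : ∀ w g g', T w (g + g') = T w g + T (w + q • g) g')
    (close : ∀ w g g', T w (g + π • g') = T w g) (hq : q = π * r) (hu : (1 + q) * u = 1)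
    (w g g' : V) : T w (g + g') = T w g + T w g' := by
  have h0 : ∀ w, T w 0 = 0 := by
    intro w
    have h := coc w 0 0
    rw [smul_zero, add_zero, add_zero] at h
    exact left_eq_add.1 h
  have hπ : ∀ w g, T w (π • g) = 0 := by
    intro w g
    have h := close w 0 g
    rw [zero_add] at h
    rw [h, h0]
  have key : ∀ w g η, T (w + (1 + q) • (π • η)) g = T w g := by
    intro w g η
    obtain ⟨ξ, hξ⟩ : ∃ ξ, ξ = π • η := ⟨_, rfl⟩
    rw [← hξ]
    have h1 : T (w + ξ) (ξ + g) = T (w - g) (g + ξ) := by
      have h2 := par (w + ξ) (ξ + g) (-1)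
      rw [neg_one_smul] at h2
      have h3 : w + ξ + -(ξ + g) = w - g := by abel
      rw [h3] at h2
      rw [← h2, add_comm g ξ]
    have h2 : T (w + ξ) (ξ + g) = T w ξ + T (w + (1 + q) • ξ) g := by
      have h3 := par w ξ 1
      rw [one_smul] at h3
      rw [coc, h3, add_smul, one_smul, add_assoc w]
    have h4 : T (w - g) (g + ξ) = T w g + T (w - g + q • g) ξ := by
      have h3 := par (w - g) g 1
      rw [one_smul, sub_add_cancel] at h3
      rw [coc, ← h3]
    rw [h2, h4, hξ, hπ, hπ, zero_add, add_zero] at h1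
    rw [hξ]
    exact h1
  have h5 : T (w + q • g) g' = T w g' := by
    have h6 := key w g' ((u * r) • g)
    have h7 : (1 + q) • (π • ((u * r) • g)) = q • g := by
      rw [smul_smul, smul_smul]
      congr 1
      rw [hq] at hu ⊢
      linear_combination (π * r) * hu
    rwa [h7] at h6
  rw [coc, h5]

end alg

end GX
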