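import Pool.Agent.Lib.MP_f80667_ag.Kv.A

/-! The characters on the values of displacements of level `≥ 2`. -/

open ZC BE PE CV IntermediateField

namespace GX

variable {F : Type} [Field F] {N d : ℕ} {ι : Type} {f : ι → MvPolynomial (Fin N) F}
  {K Ω : Type} [Field K] [CharZero K] [Field Ω] [Algebra K Ω] [Algebra F K] [Algebra F Ω]
  [IsScalarTower F K Ω] [IsAlgClosure K Ω] {L : Ld K Ω} {ψ : Prj K N d} {π : Ω} {k s : ℕ}
  {χ : ((Xf f).pt Ω →₀ ℤ) → ZMod L.p} {M M' : IntermediateField K Ω}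
  {c g g' : Fin (d + 1) → Ω} {w : Ω}

theorem Chv.ne (hχ : Chv f L π s χ) : s ≠ 0 := by
  have h := hχ.two
  omega

theorem Chv.map_zero (hχ : Chv f L π s χ) : χ 0 = 0 := by
  exact hχ.zero 0 (zero_mem _)

theorem Chv.map_neg (hχ : Chv f L π s χ) {z : (Xf f).pt Ω →₀ ℤ} (hz : z ∈ Vl f L π s) :
    χ (-z) = -χ z := by
  have h := hχ.add z hz (-z) (neg_mem hz)
  rw [add_neg_cancel, hχ.map_zero] at h
  exact eq_neg_of_add_eq_zero_right h.symm

theorem Chv.map_sum (hχ : Chv f L π s χ) {α : Type} (S : Finset α)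
    {T : α → (Xf f).pt Ω →₀ ℤ} (h : ∀ i ∈ S, T i ∈ Vl f L π s) :
    χ (∑ i ∈ S, T i) = ∑ i ∈ S, χ (T i) := by
  classical
  induction S using Finset.induction_on with
  | empty => rw [Finset.sum_empty, Finset.sum_empty, hχ.map_zero]
  | insert i S hi ih =>
    have h1 : ∀ j ∈ S, T j ∈ Vl f L π s := fun j hj => h j (Finset.mem_insert_of_mem hj)
    rw [Finset.sum_insert hi, Finset.sum_insert hi,
      hχ.add _ (h i (Finset.mem_insert_self i S)) _ (sum_mem h1), ih h1]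

/-- Proof: `z = z' + (z - z')`; `Vl (s + 1) ≤ Vl s` (`vl_anti`). -/
theorem Chv.congr (hπ : Uf L π) (hχ : Chv f L π s χ) {z z' : (Xf f).pt Ω →₀ ℤ}
    (hz' : z' ∈ Vl f L π s) (h : z - z' ∈ Vl f L π (s + 1)) : χ z = χ z' := by
  have h1 : z - z' ∈ Vl f L π s := vl_anti hπ (Nat.le_succ s) h
  have h2 := hχ.add z' hz' (z - z') h1
  rw [add_sub_cancel, hχ.zero _ h, add_zero] at h2
  exact h2

private theorem kdv_iv {L : Ld K Ω} (hπ : Uf L π) (hg : Iv L M g) (s : ℕ) :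
    Iv L M (π ^ s • g) ∧ ∀ r, L.nm ((π ^ s • g) r) ≤ L.nm π ^ s := by
  have h2 : ∀ r, L.nm ((π ^ s • g) r) ≤ L.nm π ^ s := fun r => by
    rw [Pi.smul_apply, smul_eq_mul, L.mul, L.pow]
    exact mul_le_of_le_one_right (pow_nonneg (L.nonneg _) s) (hg r).2
  exact ⟨fun r => ⟨mul_mem (pow_mem (hπ.mem M) s) (hg r).1,
    (h2 r).trans (pow_le_one₀ (L.nonneg _) hπ.lt.le)⟩, h2⟩

/-- Proof: `cyv_dr`, `vl_dr`. -/
theorem cyv_vlv (hy : Hyv f L π k) (hψ : Pj f L ψ) (hM : Um L M) (hG : Gp L ψ M c w)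
    (hg : Iv L M g) (hs : s ≠ 0) : cyv f L ψ M c w (π ^ s • g) ∈ Vl f L π s := by
  obtain ⟨h1, h2⟩ := kdv_iv hy.uf hg s
  exact vl_dr s (cyv_dr hy.uf hψ hM hG h1 hs h2)

/-- Proof: `cyv_dr` with `s + 1`: the character is `0` on the displacements `π ^ s π g`. -/
theorem ch_piv (hy : Hyv f L π k) (hψ : Pj f L ψ) (hM : Um L M) (hG : Gp L ψ M c w)
    (hg : Iv L M g) (hχ : Chv f L π s χ) : χ (cyv f L ψ M c w (π ^ s • (π • g))) = 0 := by
  have h1 := cyv_vlv hy hψ hM hG hg (Nat.succ_ne_zero s)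
  rw [smul_smul, ← pow_succ]
  exact hχ.zero _ h1

/-- Congruent displacements. Proof: `cyv_close`. -/
theorem ch_closev (hy : Hyv f L π k) (hψ : Pj f L ψ) (hM : Um L M) (hG : Gp L ψ M c w)
    (hg : Iv L M g) (hg' : Iv L M g') (hs : s ≠ 0) (hχ : Chv f L π s χ) :
    χ (cyv f L ψ M c w (π ^ s • (g + π • g'))) = χ (cyv f L ψ M c w (π ^ s • g)) := by
  have h1 : Iv L M (π • g') := by
    have h2 := (kdv_iv hy.uf hg' 1).1
    rwa [pow_one] at h2
  have h2 : Iv L M (g + π • g') := fun r =>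
    ⟨add_mem (hg r).1 (h1 r).1, (L.add _ _).trans (max_le (hg r).2 (h1 r).2)⟩
  obtain ⟨h3, h3'⟩ := kdv_iv hy.uf hg s
  obtain ⟨h4, -⟩ := kdv_iv hy.uf h2 s
  refine hχ.congr hy.uf (cyv_vlv hy hψ hM hG hg hs) ?_
  refine vl_dr _ (cyv_close hy.uf hψ hM hG h3 h4 (Nat.succ_ne_zero s)
    (fun r => (h3' r).trans_lt (hy.uf.pow_lt hs)) fun r => ?_)
  have e : (π ^ s • (g + π • g')) r - (π ^ s • g) r = (π ^ (s + 1) • g') r := by
    simp only [Pi.smul_apply, Pi.add_apply, smul_eq_mul]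
    ring
  rw [e]
  exact (kdv_iv hy.uf hg' (s + 1)).2 r

/-- Parallel displacements. Proof: `cyv_par` with `a = π b`, `π ^ s` in place of `b`, `v = g`; `Chv.congr`; the point over `c + π b g` is in `Gp` (`Gp.sh`). -/
theorem ch_parv (hy : Hyv f L π k) (hψ : Pj f L ψ) (hM : Um L M) (hG : Gp L ψ M c w)
    (hg : Iv L M g) {b : Ω} (hb : b ∈ M) (hb1 : L.nm b ≤ 1) (hs : s ≠ 0)
    (hχ : Chv f L π s χ) :
    χ (cyv f L ψ M (c + π • (b • g)) (sht L ψ w (c + π • (b • g))) (π ^ s • g)) =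
      χ (cyv f L ψ M c w (π ^ s • g)) := by
  have h1 : L.nm (π * b) ≤ L.nm π ^ 1 := by
    rw [L.mul, pow_one]
    exact mul_le_of_le_one_right (L.nonneg _) hb1
  have h2 := cyv_par hy.uf hψ hM hG (mul_mem (hy.uf.mem M) hb) (pow_mem (hy.uf.mem M) s) hg
    one_ne_zero hs h1 (L.pow π s).le
  rw [mul_smul, add_comm 1 s] at h2
  exact hχ.congr hy.uf (cyv_vlv hy hψ hM hG hg hs) h2

private theorem kdv_oi {M : IntermediateField K Ω} (g : Fin (d + 1) → Oi L M) :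
    Iv L M fun r => (g r : Ω) := fun r => ⟨(g r).2.1, (g r).2.2⟩

/-- The uniformizer as an element of `Oi L M`. -/
private def kdv_pi (hπ : Uf L π) (M : IntermediateField K Ω) : Oi L M := ⟨π, hπ.mem M, hπ.lt.le⟩

/-- `1 + π ^ (s - 1)` is a unit for `s ≥ 2`. -/
private theorem kdv_unit (hπ : Uf L π) (M : IntermediateField K Ω) {s : ℕ} (hs : 2 ≤ s) :
    ∃ u : Oi L M, (1 + kdv_pi hπ M ^ (s - 1)) * u = 1 := by
  have h1 : L.nm (π ^ (s - 1)) < 1 := by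
    rw [L.pow]
    exact hπ.pow_lt (by omega)
  have h2 : L.nm (1 + π ^ (s - 1)) = 1 := by
    refine le_antisymm ((L.add _ _).trans (max_le L.one.le h1.le)) ?_
    by_contra h3
    rw [not_le] at h3
    have h4 : L.nm ((1 + π ^ (s - 1)) - π ^ (s - 1)) < 1 :=
      (L.sub _ _).trans_lt (max_lt h3 h1)
    rw [add_sub_cancel_right, L.one] at h4
    exact lt_irrefl _ h4
  have h3 : (1 + π ^ (s - 1) : Ω) ≠ 0 := by
    intro h
    rw [h, L.zero] at h2
    exact zero_ne_one h2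
  refine ⟨⟨(1 + π ^ (s - 1))⁻¹, inv_mem (add_mem (one_mem M) (pow_mem (hπ.mem M) _)), ?_⟩, ?_⟩
  · rw [L.inv, h2, inv_one]
  · apply Subtype.ext
    exact mul_inv_cancel₀ h3

private theorem kdv_gp (hπ : Uf L π) (hψ : Pj f L ψ) (hG : Gp L ψ M c w)
    (η : Fin (d + 1) → Oi L M) :
    Gp L ψ M (c + π • fun r => (η r : Ω)) (sht L ψ w (c + π • fun r => (η r : Ω))) :=
  hG.pi hπ hψ (kdv_oi η)

private theorem kdv_sm (hπ : Uf L π) (η : Fin (d + 1) → Oi L M) :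
    Iv L M (π • fun r => (η r : Ω)) ∧ ∀ r, L.nm ((π • fun r => (η r : Ω)) r) < 1 := by
  obtain ⟨h1, h2⟩ := kdv_iv hπ (kdv_oi η) 1
  rw [pow_one] at h1 h2
  exact ⟨h1, fun r => (h2 r).trans_lt (by rw [pow_one]; exact hπ.lt)⟩

/-- The additivity in the disc. Proof: `dfx_add`. -/
theorem td_addv (hy : Hyv f L π k) (hψ : Pj f L ψ) (hχ : Chv f L π s χ) (hM : Um L M)
    (hG : Gp L ψ M c w) (η g g' : Fin (d + 1) → Oi L M) :
    Td f L ψ π s χ M c w η (g + g') =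
      Td f L ψ π s χ M c w η g + Td f L ψ π s χ M c w η g' := by
  have hs := hχ.ne
  have hs2 := hχ.two
  have hfd : FiniteDimensional K M := hM.fd
  obtain ⟨u, hu⟩ := kdv_unit hy.uf M hs2
  have hq : kdv_pi hy.uf M ^ (s - 1) = kdv_pi hy.uf M * kdv_pi hy.uf M ^ (s - 2) := by
    rw [← pow_succ']
    congr 1
    omega
  refine dfx_add (π := kdv_pi hy.uf M) (fun η g σ => ?_) (fun η g g' => ?_)
    (fun η g g' => ?_) hq hu η g g'
  · have h1 := kdv_sm hy.uf η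
    have h2 := kdv_sm hy.uf (η + σ • g)
    have h := ch_parv hy hψ hM (kdv_gp hy.uf hψ hG η) (kdv_oi g) (b := (σ : Ω)) σ.2.1 σ.2.2
      hs hχ
    have e : (c + π • fun r => (η r : Ω)) + π • ((σ : Ω) • fun r => (g r : Ω)) =
        c + π • fun r => (((η + σ • g) r : Oi L M) : Ω) := by
      rw [add_assoc, ← smul_add]
      rfl
    rw [e, sht_sht hψ hG h1.1 h2.1 h1.2 h2.2] at h
    exact h
  · have h1 := kdv_sm hy.uf η
    have h2 := kdv_sm hy.uf (η + kdv_pi hy.uf M ^ (s - 1) • g)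
    obtain ⟨h3, h3'⟩ := kdv_iv hy.uf (kdv_oi g) s
    obtain ⟨h4, h4'⟩ := kdv_iv hy.uf (kdv_oi g') s
    have hlt : L.nm π ^ s < 1 := hy.uf.pow_lt hs
    have h := cyv_add hψ (kdv_gp hy.uf hψ hG η) h3 h4 (fun r => (h3' r).trans_lt hlt)
      fun r => (h4' r).trans_lt hlt
    have e : (c + π • fun r => (η r : Ω)) + π ^ s • (fun r => (g r : Ω)) =
        c + π • fun r => (((η + kdv_pi hy.uf M ^ (s - 1) • g) r : Oi L M) : Ω) := by
      have e1 : (fun r => (((η + kdv_pi hy.uf M ^ (s - 1) • g) r : Oi L M) : Ω)) =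
          (fun r => (η r : Ω)) + π ^ (s - 1) • fun r => (g r : Ω) := rfl
      have e2 : π ^ s = π * π ^ (s - 1) := by
        rw [← pow_succ']
        congr 1
        omega
      rw [e1, smul_add, smul_smul, ← e2, add_assoc]
    rw [e, sht_sht hψ hG h1.1 h2.1 h1.2 h2.2, ← smul_add] at h
    have h5 := cyv_vlv hy hψ hM (kdv_gp hy.uf hψ hG η) (kdv_oi g) hs
    have h6 := cyv_vlv hy hψ hM
      (kdv_gp hy.uf hψ hG (η + kdv_pi hy.uf M ^ (s - 1) • g)) (kdv_oi g') hs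
    have h7 := congrArg χ h
    rw [hχ.add _ h5 _ h6] at h7
    exact h7
  · exact ch_closev hy hψ hM (kdv_gp hy.uf hψ hG η) (kdv_oi g) (kdv_oi g') hs hχ

/-- **Additivity.** Proof: `td_addv` at `c`. -/
theorem ch_addv (hy : Hyv f L π k) (hψ : Pj f L ψ) (hM : Um L M) (hG : Gp L ψ M c w)
    (hg : Iv L M g) (hg' : Iv L M g') (_ : s ≠ 0) (hχ : Chv f L π s χ) :
    χ (cyv f L ψ M c w (π ^ s • (g + g'))) =
      χ (cyv f L ψ M c w (π ^ s • g)) + χ (cyv f L ψ M c w (π ^ s • g')) := by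
  have h := td_addv hy hψ hχ hM hG 0 (fun r => ⟨g r, hg r⟩) fun r => ⟨g' r, hg' r⟩
  have e : (c + π • fun r => (((0 : Fin (d + 1) → Oi L M) r : Oi L M) : Ω)) = c := by
    have e1 : (fun r => (((0 : Fin (d + 1) → Oi L M) r : Oi L M) : Ω)) = 0 := rfl
    rw [e1, smul_zero, add_zero]
  unfold Td at h
  rw [e, sht_self hψ hG] at h
  exact h

end GX
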