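import Pool.Agent.Lib.MP_f80667_ag.Kv.Kd
import Pool.Agent.Lib.MP_f80667_ag.Lv.Tc

/-! The characters on the values of displacements: extension of the field. -/

open ZC BE PE CV IntermediateField

namespace GX

variable {F : Type} [Field F] {N d : ℕ} {ι : Type} {f : ι → MvPolynomial (Fin N) F}
  {K Ω : Type} [Field K] [CharZero K] [Field Ω] [Algebra K Ω] [Algebra F K] [Algebra F Ω]
  [IsScalarTower F K Ω] [IsAlgClosure K Ω] {L : Ld K Ω} {ψ : Prj K N d} {π : Ω} {k s : ℕ}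
  {χ : ((Xf f).pt Ω →₀ ℤ) → ZMod L.p} {M M' : IntermediateField K Ω}
  {c g g' : Fin (d + 1) → Ω} {w : Ω}

/-- Extension of the field. Proof: `cyv_norm` with `π ^ s b`; `Nm M M' (π ^ s b) = π ^ s Nm M M' b` (`π ∈ ⊥`; `Nm` is a sum of conjugates, `nm_rep`); `Chv.congr`. -/
theorem ch_normv (hy : Hyv f L π k) (hψ : Pj f L ψ) (hM : Um L M) (hM' : Um L M')
    (hle : M ≤ M') (hG : Gp L ψ M c w) (hg : Iv L M g) {b : Ω} (hb : b ∈ M')
    (hb1 : L.nm b ≤ 1) (hs : s ≠ 0) (hχ : Chv f L π s χ) :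
    χ (cyv f L ψ M' c w (π ^ s • (b • g))) =
      χ (cyv f L ψ M c w (π ^ s • (Nm M M' b • g))) := by
  have hπ := hy.uf
  have hfd' : FiniteDimensional K M' := hM'.fd
  have hbm : π ^ s * b ∈ M' := mul_mem (pow_mem (hπ.mem M') s) hb
  have h1 : L.nm (π ^ s * b) ≤ L.nm π ^ s := by
    rw [L.mul, L.pow]
    exact mul_le_of_le_one_right (pow_nonneg (L.nonneg _) _) hb1
  -- the trace of `π ^ s b`
  have hNM : Nm M M' b ∈ M := fx_mem.1 (nm_fx hle (fx_mem.2 hb))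
  have hN1 : L.nm (Nm M M' b) ≤ 1 := by
    obtain ⟨S, -, -, -, h₃⟩ := nm_rep hle
    rw [h₃ Ω b]
    refine L.sum_le _ _ zero_le_one fun γ _ => ?_
    change L.nm (γ b) ≤ _
    rw [L.act]
    exact hb1
  have hNp : Nm M M' (π ^ s * b) = π ^ s * Nm M M' b := by
    obtain ⟨S, -, -, -, h₃⟩ := nm_rep hle
    rw [h₃ Ω b, h₃ Ω (π ^ s * b), Finset.mul_sum]
    refine Finset.sum_congr rfl fun γ _ => ?_
    change γ (π ^ s * b) = π ^ s * γ b
    obtain ⟨a, ha⟩ := IntermediateField.mem_bot.1 hπ.bot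
    rw [map_mul, map_pow, ← ha, AlgEquiv.commutes]
  have hgN : Iv L M (Nm M M' b • g) := fun r => by
    rw [Pi.smul_apply, smul_eq_mul]
    refine ⟨mul_mem hNM (hg r).1, ?_⟩
    rw [L.mul]
    exact mul_le_one₀ hN1 (L.nonneg _) (hg r).2
  have h2 := cyv_norm hπ hψ hM hM' hle hG hbm hg hs h1
  rw [hNp, mul_smul, mul_smul] at h2
  refine hχ.congr hπ (cyv_vlv hy hψ hM hG hgN hs) ?_
  exact vl_anti hπ (show s + 1 ≤ 2 * s by omega) h2

end GX
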