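import Pool.Agent.Lib.MP_f80667_ag.Kv.Kg
import Pool.Agent.Lib.MP_f80667_ag.Kv.Ke1

/-! The trace functionals in a residue disc. -/

open ZC BE PE CV IntermediateField

namespace GX

variable {F : Type} [Field F] {N d : ℕ} {ι : Type} {f : ι → MvPolynomial (Fin N) F}
  {K Ω : Type} [Field K] [CharZero K] [Field Ω] [Algebra K Ω] [Algebra F K] [Algebra F Ω]
  [IsScalarTower F K Ω] [IsAlgClosure K Ω] {L : Ld K Ω} {ψ : Prj K N d} {π : Ω} {k s : ℕ}
  {χ : ((Xf f).pt Ω →₀ ℤ) → ZMod L.p} {c η η' : Fin (d + 1) → Ω} {w : Ω}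

private theorem kg1_val {R : Type} [Field R] {p : ℕ} [Fact p.Prime] [CharP R p]
    (a b : ZMod p) : ((a + b).val : R) = (a.val : R) + (b.val : R) := by
  rw [ZMod.natCast_val, ZMod.natCast_val, ZMod.natCast_val]
  exact ZMod.cast_add' a b

private theorem kg1_lin {R : Type} [Field R] {p : ℕ} [Fact p.Prime] [CharP R p]
    {a b a' b' : ZMod p} (h : a + b = a' + b') :
    (a.val : R) + (b.val : R) = (a'.val : R) + (b'.val : R) := by
  rw [← kg1_val, ← kg1_val, h]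

/-- An integral vector as a vector of elements of `Oi L M`. -/
private def kg1_o {L : Ld K Ω} {M : IntermediateField K Ω} {η : Fin (d + 1) → Ω}
    (hη : Iv L M η) : Fin (d + 1) → Oi L M := fun i => ⟨η i, hη i⟩

/-- The value at the point over `c + π η` and the displacement `z` in the direction `r`. -/
private theorem kg1_td (hy : Hyv f L π k) (hψ : Pj f L ψ) (hχ : Chv f L π s χ) (hs : s ≠ 0)
    {n : ℕ} (hn : n ≠ 0) (hkn : k ∣ n) (hG : Gp L ψ (L.Ur ⊥ n) c w)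
    (hη : Iv L (L.Ur ⊥ n) η) (r : Fin (d + 1)) {z : Ω} {τ : L.κ} (hz : z ∈ L.Ur ⊥ n)
    (hv : L.rs.Hv z τ) :
    ((Td f L ψ π s χ (L.Ur ⊥ n) c w (kg1_o hη)
      (Pi.single r (⟨z, hz, L.hv_int hv⟩ : Oi L (L.Ur ⊥ n)))).val : L.κ) =
      trn L.p n (τ * lw f L ψ π s χ k (c + π • η) (sht L ψ w (c + π • η)) r) := by
  have e1 : (fun i => ((Pi.single r (⟨z, hz, L.hv_int hv⟩ : Oi L (L.Ur ⊥ n)) :
      Fin (d + 1) → Oi L (L.Ur ⊥ n)) i : Ω)) = Pi.single r z := by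
    funext i
    by_cases hi : i = r
    · subst hi
      rw [Pi.single_eq_same, Pi.single_eq_same]
    · rw [Pi.single_eq_of_ne hi, Pi.single_eq_of_ne hi]
      rfl
  have e2 : (fun i => (kg1_o hη i : Ω)) = η := rfl
  have h1 := (lw_specv hy hψ hχ hs hn hkn (hG.pi hy.uf hψ hη)).2 (Pi.single r z)
    (Pi.single r τ) ?_ ?_
  · unfold Td
    rw [e1, e2, h1]
    congr 1
    rw [Finset.sum_eq_single r]
    · rw [Pi.single_eq_same]
    · intro i _ hi
      rw [Pi.single_eq_of_ne hi, zero_mul]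
    · intro hr
      exact absurd (Finset.mem_univ r) hr
  · intro i
    by_cases hi : i = r
    · subst hi
      rw [Pi.single_eq_same]
      exact ⟨hz, L.hv_int hv⟩
    · rw [Pi.single_eq_of_ne hi]
      exact ⟨zero_mem _, by rw [L.zero]; exact zero_le_one⟩
  · intro i
    by_cases hi : i = r
    · subst hi
      rw [Pi.single_eq_same, Pi.single_eq_same]
      exact hv
    · rw [Pi.single_eq_of_ne hi, Pi.single_eq_of_ne hi]
      exact Rs.Hv.zero

private theorem kg1_zero {M : IntermediateField K Ω} : Iv L M (0 : Fin (d + 1) → Ω) :=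
  fun _ => ⟨zero_mem _, by rw [Pi.zero_apply, L.zero]; exact zero_le_one⟩

private theorem kg1_td0 (hy : Hyv f L π k) (hψ : Pj f L ψ) (hχ : Chv f L π s χ) (hs : s ≠ 0)
    {n : ℕ} (hn : n ≠ 0) (hkn : k ∣ n) (hG : Gp L ψ (L.Ur ⊥ n) c w) (r : Fin (d + 1))
    {z : Ω} {τ : L.κ} (hz : z ∈ L.Ur ⊥ n) (hv : L.rs.Hv z τ) :
    ((Td f L ψ π s χ (L.Ur ⊥ n) c w 0
      (Pi.single r (⟨z, hz, L.hv_int hv⟩ : Oi L (L.Ur ⊥ n)))).val : L.κ) =
      trn L.p n (τ * lw f L ψ π s χ k c w r) := by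
  have h1 := kg1_td hy hψ hχ hs hn hkn hG (kg1_zero (L := L) (M := L.Ur ⊥ n) (d := d)) r hz hv
  rw [smul_zero, add_zero, sht_self hψ hG] at h1
  exact h1

/-- **Additivity.** Proof: for every `r` and `z ∈ Ur ⊥ n` integral with the residue `τ`, `g = z • Pi.single r 1`: `Dfc.add_left` for `td_dfcv` and `lw_specv` at the four points (`Gp.pi`): the traces of `τ` times the two sides agree (`trn_add`, `ZMod` values: as `lb_val` in `Gy/Lb.lean`); `fp_uniq` (`kf_ur`). -/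
theorem lw_discv (hy : Hyv f L π k) (hψ : Pj f L ψ) (hχ : Chv f L π s χ) (hs : s ≠ 0) {n : ℕ}
    (hn : n ≠ 0) (hkn : k ∣ n) (hG : Gp L ψ (L.Ur ⊥ n) c w) (hη : Iv L (L.Ur ⊥ n) η)
    (hη' : Iv L (L.Ur ⊥ n) η') (r : Fin (d + 1)) :
    lw f L ψ π s χ k (c + π • (η + η')) (sht L ψ w (c + π • (η + η'))) r +
      lw f L ψ π s χ k c w r =
    lw f L ψ π s χ k (c + π • η) (sht L ψ w (c + π • η)) r +
      lw f L ψ π s χ k (c + π • η') (sht L ψ w (c + π • η')) r := by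
  have hpf : Fact L.p.Prime := ⟨L.pp⟩
  have hcp : CharP L.κ L.p := L.char_κ
  have hΩ : IsAlgClosed Ω := IsAlgClosure.isAlgClosed K
  have hcl : IsAlgClosed L.κ := L.κ_closed
  have hs2 : Iv L (L.Ur ⊥ n) (η + η') := fun i =>
    ⟨add_mem (hη i).1 (hη' i).1, (L.add _ _).trans (max_le (hη i).2 (hη' i).2)⟩
  have hT := td_dfcv (f := f) (s := s) (χ := χ) hy hψ hχ hs ⟨n, hn, le_rfl⟩ hG
  have q := fun {ξ : Fin (d + 1) → Ω} (hξ : Iv L (L.Ur ⊥ n) ξ) =>
    (lw_specv hy hψ hχ hs hn hkn (hG.pi hy.uf hψ hξ)).1 r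
  have q0 := (lw_specv hy hψ hχ hs hn hkn hG).1 r
  refine fp_uniq hn ?_ ?_ fun τ hτ => ?_
  · rw [add_pow_char_pow, q hs2, q0]
  · rw [add_pow_char_pow, q hη, q hη']
  · obtain ⟨z, hz, hv⟩ := kf_ur (K := K) hn hτ
    rw [mul_add, mul_add, trn_add, trn_add, ← kg1_td hy hψ hχ hs hn hkn hG hs2 r hz hv,
      ← kg1_td0 hy hψ hχ hs hn hkn hG r hz hv, ← kg1_td hy hψ hχ hs hn hkn hG hη r hz hv,
      ← kg1_td hy hψ hχ hs hn hkn hG hη' r hz hv]
    have h1 := hT.add_left 0 (kg1_o hη) (kg1_o hη')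
      (Pi.single r (⟨z, hz, L.hv_int hv⟩ : Oi L (L.Ur ⊥ n)))
    rw [zero_add, zero_add, zero_add] at h1
    exact kg1_lin h1

/-- **Linearity.** Proof: as `lw_discv` with `Dfc.bal`: for `g = z • Pi.single r 1` the value at `b • g` has the trace of `ρ (b) τ`. -/
theorem lw_disc_smulv (hy : Hyv f L π k) (hψ : Pj f L ψ) (hχ : Chv f L π s χ) (hs : s ≠ 0)
    {n : ℕ} (hn : n ≠ 0) (hkn : k ∣ n) (hG : Gp L ψ (L.Ur ⊥ n) c w)
    (hη : Iv L (L.Ur ⊥ n) η) {b : Ω} (hb : b ∈ L.Ur ⊥ n) (hb1 : L.nm b ≤ 1)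
    (r : Fin (d + 1)) :
    lw f L ψ π s χ k (c + π • (b • η)) (sht L ψ w (c + π • (b • η))) r -
      lw f L ψ π s χ k c w r =
    rv L b * (lw f L ψ π s χ k (c + π • η) (sht L ψ w (c + π • η)) r -
      lw f L ψ π s χ k c w r) := by
  have hpf : Fact L.p.Prime := ⟨L.pp⟩
  have hcp : CharP L.κ L.p := L.char_κ
  have hΩ : IsAlgClosed Ω := IsAlgClosure.isAlgClosed K
  have hcl : IsAlgClosed L.κ := L.κ_closed
  have hbη : Iv L (L.Ur ⊥ n) (b • η) := fun i =>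
    ⟨mul_mem hb (hη i).1, by
      rw [Pi.smul_apply, smul_eq_mul, L.mul]
      exact mul_le_one₀ hb1 (L.nonneg _) (hη i).2⟩
  have hT := td_dfcv (f := f) (s := s) (χ := χ) hy hψ hχ hs ⟨n, hn, le_rfl⟩ hG
  have q := fun {ξ : Fin (d + 1) → Ω} (hξ : Iv L (L.Ur ⊥ n) ξ) =>
    (lw_specv hy hψ hχ hs hn hkn (hG.pi hy.uf hψ hξ)).1 r
  have q0 := (lw_specv hy hψ hχ hs hn hkn hG).1 r
  have hbv := rv_hv L hb1
  have hbp := kf_res (K := K) hy.rf hn hkn hb hbv
  have key : lw f L ψ π s χ k (c + π • (b • η)) (sht L ψ w (c + π • (b • η))) r +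
      rv L b * lw f L ψ π s χ k c w r =
      rv L b * lw f L ψ π s χ k (c + π • η) (sht L ψ w (c + π • η)) r +
        lw f L ψ π s χ k c w r := by
    refine fp_uniq hn ?_ ?_ fun τ hτ => ?_
    · rw [add_pow_char_pow, mul_pow, q hbη, hbp, q0]
    · rw [add_pow_char_pow, mul_pow, q hη, hbp, q0]
    · obtain ⟨z, hz, hv⟩ := kf_ur (K := K) hn hτ
      have hbz : b * z ∈ L.Ur ⊥ n := mul_mem hb hz
      have hv' := hbv.mul hv
      have e3 : τ * (rv L b * lw f L ψ π s χ k c w r) =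
          (rv L b * τ) * lw f L ψ π s χ k c w r := by ring
      have e4 : τ * (rv L b * lw f L ψ π s χ k (c + π • η) (sht L ψ w (c + π • η)) r) =
          (rv L b * τ) * lw f L ψ π s χ k (c + π • η) (sht L ψ w (c + π • η)) r := by ring
      rw [mul_add, mul_add, trn_add, trn_add, e3, e4,
        ← kg1_td hy hψ hχ hs hn hkn hG hbη r hz hv,
        ← kg1_td0 hy hψ hχ hs hn hkn hG r hz hv,
        ← kg1_td0 hy hψ hχ hs hn hkn hG r hbz hv',
        ← kg1_td hy hψ hχ hs hn hkn hG hη r hbz hv']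
      have h1 := hT.bal 0 (kg1_o hη)
        (Pi.single r (⟨z, hz, L.hv_int hv⟩ : Oi L (L.Ur ⊥ n))) ⟨b, hb, hb1⟩
      rw [zero_add, zero_add] at h1
      have e5 : ((⟨b, hb, hb1⟩ : Oi L (L.Ur ⊥ n)) •
          (Pi.single r (⟨z, hz, L.hv_int hv⟩ : Oi L (L.Ur ⊥ n)) :
            Fin (d + 1) → Oi L (L.Ur ⊥ n))) =
          Pi.single r (⟨b * z, hbz, L.hv_int hv'⟩ : Oi L (L.Ur ⊥ n)) := by
        funext i
        rw [Pi.smul_apply]
        by_cases hi : i = r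
        · subst hi
          rw [Pi.single_eq_same, Pi.single_eq_same]
          rfl
        · rw [Pi.single_eq_of_ne hi, Pi.single_eq_of_ne hi, smul_zero]
      have e6 : ((⟨b, hb, hb1⟩ : Oi L (L.Ur ⊥ n)) • kg1_o hη) = kg1_o hbη := rfl
      rw [e5, e6] at h1
      refine kg1_lin ?_
      rw [← sub_eq_sub_iff_add_eq_add]
      exact h1
  linear_combination key

end GX
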