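import Pool.Agent.Lib.MP_f80667_ag.Lv.Kh
import Pool.Agent.Lib.MP_f80667_ag.Lv.Kc1
import Pool.Agent.Lib.MP_f80667_ag.Kv.Kg1

/-! The sums over the roots: the residue discs and homogeneity. -/

open ZC BE PE CV IntermediateField

namespace GX

variable {F : Type} [Field F] {N d : ℕ} {ι : Type} {f : ι → MvPolynomial (Fin N) F}
  {K Ω : Type} [Field K] [CharZero K] [Field Ω] [Algebra K Ω] [Algebra F K] [Algebra F Ω]
  [IsScalarTower F K Ω] [IsAlgClosure K Ω] {L : Ld K Ω} {ψ : Prj K N d} {π : Ω} {k s : ℕ}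
  {χ : ((Xf f).pt Ω →₀ ℤ) → ZMod L.p} {c h h' : Fin (d + 1) → Rn L}

/-- The sum over the roots in a disc. Proof: `rts_sht`; the residues of `w` and of the root near `w` agree (`Gp.sh`, `L.hv_sub`). -/
theorem pw_shv (hy : Hyv f L π k) (hψ : Pj f L ψ)
    (hD : L.nm (MvPolynomial.aeval (fun r => (c r : Ω)) ψ.D) = 1) (j : ℕ)
    (u : Fin (d + 1) → L.κ) :
    Pw f L ψ π s χ k j (c + hy.uf.rn • h) u = ∑ w ∈ rts ψ fun r => (c r : Ω), rv L w ^ j *
      ∑ r, lw f L ψ π s χ k ((fun r => (c r : Ω)) + π • fun r => (h r : Ω))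
        (sht L ψ w ((fun r => (c r : Ω)) + π • fun r => (h r : Ω))) r * u r := by
  obtain ⟨n, hn, hkn, h1, h2, -, h3⟩ := pw_fld (h := h) (h' := h) hy.rf hψ hD
  have hπn : π ∈ L.Ur ⊥ n := hy.uf.mem _
  have hπh : Iv L (L.Ur ⊥ n) (π • fun r => (h r : Ω)) := fun r =>
    ⟨mul_mem hπn (h2 r).1, by
      rw [Pi.smul_apply, smul_eq_mul, L.mul]
      exact mul_le_one₀ hy.uf.lt.le (L.nonneg _) (h2 r).2⟩
  have hlt : ∀ r, L.nm ((π • fun r => (h r : Ω)) r) ≤ L.nm π := fun r => by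
    rw [Pi.smul_apply, smul_eq_mul, L.mul]
    exact mul_le_of_le_one_right (L.nonneg _) (h2 r).2
  have heq : (fun r => ((c + hy.uf.rn • h) r : Ω)) =
      (fun r => (c r : Ω)) + π • fun r => (h r : Ω) := rfl
  unfold Pw
  rw [heq, rts_sht hψ hn h1 hD hπh (fun r => (hlt r).trans_lt hy.uf.lt)
    (fun w => rv L w ^ j * ∑ r, lw f L ψ π s χ k
      ((fun r => (c r : Ω)) + π • fun r => (h r : Ω)) w r * u r)]
  refine Finset.sum_congr rfl fun w hw => ?_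
  obtain ⟨h4, h5⟩ := (h3 w hw).sh hψ hπh hy.uf.lt hlt
  have h6 : rv L (sht L ψ w ((fun r => (c r : Ω)) + π • fun r => (h r : Ω))) = rv L w :=
    (L.hv_sub (rv_hv L h4.le) (rv_hv L (h3 w hw).le)).2 (h5.trans_lt hy.uf.lt)
  simp only [h6]

/-- Proof: `pw_shv` three times, `lw_discv` (`pw_fld`). -/
theorem pw_discv (hy : Hyv f L π k) (hψ : Pj f L ψ) (hχ : Chv f L π s χ) (hs : s ≠ 0)
    (hD : L.nm (MvPolynomial.aeval (fun r => (c r : Ω)) ψ.D) = 1) (j : ℕ)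
    (u : Fin (d + 1) → L.κ) :
    Pw f L ψ π s χ k j (c + hy.uf.rn • (h + h')) u + Pw f L ψ π s χ k j c u =
      Pw f L ψ π s χ k j (c + hy.uf.rn • h) u + Pw f L ψ π s χ k j (c + hy.uf.rn • h') u := by
  obtain ⟨n, hn, hkn, h1, h2, h2', h3⟩ := pw_fld (h := h) (h' := h') hy.rf hψ hD
  rw [pw_shv hy hψ hD, pw_shv hy hψ hD, pw_shv hy hψ hD]
  unfold Pw
  rw [← Finset.sum_add_distrib, ← Finset.sum_add_distrib]
  refine Finset.sum_congr rfl fun w hw => ?_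
  rw [← mul_add, ← mul_add, ← Finset.sum_add_distrib, ← Finset.sum_add_distrib]
  congr 1
  refine Finset.sum_congr rfl fun r _ => ?_
  rw [← add_mul, ← add_mul]
  have h4 := lw_discv hy hψ hχ hs hn hkn (h3 w hw) h2 h2' r
  exact congrArg (fun x => x * u r) h4

/-- Proof: `pw_shv` twice, `lw_disc_smulv`; a common field for `b` too. -/
theorem pw_disc_smulv (hy : Hyv f L π k) (hψ : Pj f L ψ) (hχ : Chv f L π s χ) (hs : s ≠ 0)
    (hD : L.nm (MvPolynomial.aeval (fun r => (c r : Ω)) ψ.D) = 1) (b : Rn L) (j : ℕ)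
    (u : Fin (d + 1) → L.κ) :
    Pw f L ψ π s χ k j (c + hy.uf.rn • (b • h)) u - Pw f L ψ π s χ k j c u =
      rdn L b * (Pw f L ψ π s χ k j (c + hy.uf.rn • h) u - Pw f L ψ π s χ k j c u) := by
  obtain ⟨n, hn, hkn, h1, h2, h2', h3⟩ := pw_fld (h := h) (h' := fun _ => b) hy.rf hψ hD
  rw [pw_shv hy hψ hD, pw_shv hy hψ hD]
  unfold Pw
  rw [← Finset.sum_sub_distrib, ← Finset.sum_sub_distrib, Finset.mul_sum]
  refine Finset.sum_congr rfl fun w hw => ?_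
  rw [← mul_sub, ← mul_sub, mul_left_comm (rdn L b), ← Finset.sum_sub_distrib,
    ← Finset.sum_sub_distrib, Finset.mul_sum _ _ (rdn L b)]
  refine congrArg (fun x => rv L w ^ j * x) ?_
  refine Finset.sum_congr rfl fun r _ => ?_
  rw [← sub_mul, ← sub_mul, ← mul_assoc, ← rv_rdn]
  have h4 := lw_disc_smulv hy hψ hχ hs hn hkn (h3 w hw) h2 (h2' 0).1 (h2' 0).2 r
  exact congrArg (fun x => x * u r) h4

end GX
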