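import Pool.Agent.Lib.MP_f80667_ag.Kv.Kk
import Pool.Agent.Lib.MP_f80667_ag.Kv.Ke2

/-! The characters of a graded piece: conjugates. -/

open ZC BE PE CV IntermediateField

namespace GX

variable {F : Type} [Field F] {N d m : ℕ} {ι : Type} {f : ι → MvPolynomial (Fin N) F}
  {K Ω : Type} [Field K] [CharZero K] [Field Ω] [Algebra K Ω] [Algebra F K] [Algebra F Ω]
  [IsScalarTower F K Ω] [IsAlgClosure K Ω] {L : Ld K Ω} {ψ : Fin m → Prj K N d} {π : Ω}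
  {k s : ℕ}

/-- **Conjugates.** Proof: `exists_frob L.toLf ⊥`: `γ`, `q = p ^ k` (`Ld.rf_frob hy.rf`); the map is `(i, u, c, w) ↦ (i, u ^ p ^ k, γ c, γ w)` (`cyv_act` for the point, any `h = 0`); `lw_frobv`; `sum_pow_char_pow`. -/
theorem ew_frobv (hy : Hyv f L π k) (hψ : ∀ i, Pj f L (ψ i)) (hs2 : 2 ≤ s) :
    ∃ φ : Xw L ψ k → Xw L ψ k, ∀ (θ : Gr f L π s →+ ZMod L.p) z,
      ew ψ k θ (φ z) = ew ψ k θ z ^ L.p ^ k := by
  have hs : s ≠ 0 := by omega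
  classical
  have hpf : Fact L.p.Prime := ⟨L.pp⟩
  have hcp : CharP L.κ L.p := L.char_κ
  obtain ⟨γ, q, hγ⟩ := exists_frob L.toLf (⊥ : IntermediateField K Ω)
  have hq : q = L.p ^ k := Ld.rf_frob hy.rf hγ
  subst hq
  have hact : ∀ z : Xw L ψ k, ∃ n, n ≠ 0 ∧ k ∣ n ∧
      Gp L (ψ z.1.1.1) (L.Ur ⊥ n) (fun r => γ (z.1.2.1 r)) (γ z.1.2.2) := by
    rintro ⟨z, n, hn, hkn, hG⟩
    refine ⟨n, hn, hkn, ?_⟩
    have h0 : Iv L (L.Ur ⊥ n) (fun _ : Fin (d + 1) => (0 : Ω)) := fun i =>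
      ⟨zero_mem _, by rw [L.zero]; exact zero_le_one⟩
    exact (cyv_act (f := f) (hψ z.1.1) hn hG h0
      (fun r => by rw [L.zero]; exact one_pos) γ).1
  refine ⟨fun z => ⟨((z.1.1.1, fun r => z.1.1.2 r ^ L.p ^ k),
    (fun r => γ (z.1.2.1 r), γ z.1.2.2)), hact z⟩, ?_⟩
  intro θ z
  obtain ⟨n, hn, hkn, hG⟩ := z.2
  unfold ew
  rw [sum_pow_char_pow]
  refine Finset.sum_congr rfl fun r _ => ?_
  rw [mul_pow]
  congr 1
  exact lw_frobv hy (hψ _) (chi_chv hs2 hy.uf θ) hs hn hkn hG hγ r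

end GX
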